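import Pool.Agent.Helper9.TP.KC
import Pool.Agent.Helper75.QC.Defs

/-!
# Motivic classes of rings: definitions
-/

set_option autoImplicit false

namespace Pool.Agent.Helper9.TF

open Polynomial
open Pool.Agent.Helper71.IC (Fg)
open Pool.Agent.Helper75.QC (Uniruled)
open Pool.Agent.Helper9.KC (KummerClass)

/-- `A` is `d`-uniruled: for each homomorphism from `A` to an extension field `N` of an
algebraically closed field `Ω`, the field generated over `Ω` by the image is contained in a field
`M(t)`, where `M` is algebraic over a field generated over `Ω` by fewer than `d` elements. -/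
def IsUniruled (d : ℕ) (A : Type) [CommRing A] : Prop :=
  ∀ (Ω N : Type) [Field Ω] [IsAlgClosed Ω] [Field N] [Algebra Ω N] (φ : A →+* N),
    Uniruled Ω (IntermediateField.adjoin Ω (Set.range φ)) d

/-- Untwisting of `w ^ n = a`, `a` a unit, `p` not dividing `n`, for a uniruled threefold
`Spec A[z, v] / (a z ^ n - v ^ s (1 - v) ^ t)`. The characters of order `m`, where `m` divides `s`,
`t` or `s + t`, are excluded. -/
def UniUntwist (p : ℕ) (P : ∀ (A : Type) [CommRing A], Prop) (A : Type) [CommRing A] (n s t : ℕ)
    (a : A) : Prop :=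
  IsUnit a → ¬ p ∣ n → (s.gcd t).Coprime n →
    (∀ m : ℕ, m ∣ n → (m ∣ s ∨ m ∣ t ∨ m ∣ s + t) → P (AdjoinRoot (X ^ m - C a : A[X]))) →
      IsUniruled 3 (AdjoinRoot (C (C a * X ^ n) - X ^ s * (1 - X) ^ t : A[X][X])) →
        P (AdjoinRoot (X ^ n - C a : A[X]))

/-- **Motivic classes**: Kummer classes with the rules for uniruled surfaces and threefolds. -/
structure MotivicClass (p : ℕ) (P : ∀ (A : Type) [CommRing A], Prop) : Prop where
  /-- a Kummer class -/
  kummer : KummerClass p P
  /-- uniruled surfaces -/
  surface : ∀ (A : Type) [CommRing A], Fg p A → IsUniruled 2 A → P A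
  /-- untwisting of uniruled threefolds -/
  untwist : ∀ (A : Type) [CommRing A] (n s t : ℕ) (a : A), Fg p A → UniUntwist p P A n s t a

end Pool.Agent.Helper9.TF
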