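import Pool.Agent.Helper9.TF.Uni
import Pool.Agent.Helper9.TR.Row

/-!
# The surfaces `w ^ n g ^ (s + t) = f ^ s h ^ t`, `n` a divisor of `s`, `t` or `s + t`
-/

set_option autoImplicit false

namespace Pool.Agent.Helper9.TF

open Polynomial
open Pool.Agent.Helper75.QC (Uniruled)
open Pool.Agent.Helper40.SD (uniruled_adjoin)
open Pool.Agent.Helper9.TR (Deg uni_three uni_binomial uni_power)
open IntermediateField (adjoin subset_adjoin)

theorem aev_mem {Ω M : Type} [Field Ω] [Field M] [Algebra Ω M] (x y : M)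
    (q : MvPolynomial (Fin 2) Ω) : MvPolynomial.aeval ![x, y] q ∈ adjoin Ω {x, y} := by
  induction q using MvPolynomial.induction_on with
  | C c =>
    rw [MvPolynomial.aeval_C]
    exact (adjoin Ω {x, y}).algebraMap_mem c
  | add g g' hg hg' =>
    rw [map_add]
    exact add_mem hg hg'
  | mul_X g i hg =>
    rw [map_mul, MvPolynomial.aeval_X]
    refine mul_mem hg ?_
    fin_cases i
    · exact subset_adjoin _ _ (by simp)
    · exact subset_adjoin _ _ (by simp)

/-- the surfaces -/
theorem exc_uni {Ω M : Type} [Field Ω] [IsAlgClosed Ω] [Field M] [Algebra Ω M] (x y w : M) {n : ℕ}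
    (hn : 0 < n) (hw0 : w ≠ 0) {a b c s t : ℕ} (hpos : 0 < a + b + c) (hst : s.Coprime t)
    (hs : 0 < s) (ht : 0 < t) (hexc : n ∣ s ∨ n ∣ t ∨ n ∣ s + t) (f g h : MvPolynomial (Fin 2) Ω)
    (hf : Deg a b c 0 (a + b + c) f) (hg : Deg a b c t (a + b + c) g)
    (hh : Deg a b c (s + t) (a + b + c) h) (hg0 : MvPolynomial.aeval ![x, y] g ≠ 0)
    (heq : w ^ n * MvPolynomial.aeval ![x, y] g ^ (s + t) =
      MvPolynomial.aeval ![x, y] f ^ s * MvPolynomial.aeval ![x, y] h ^ t) :
    Uniruled Ω (adjoin Ω {x, y, w} : IntermediateField Ω M) 2 := by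
  classical
  set F := MvPolynomial.aeval ![x, y] f with hF
  set G := MvPolynomial.aeval ![x, y] g with hG
  set H := MvPolynomial.aeval ![x, y] h with hH
  have hFH : F ^ s * H ^ t ≠ 0 := by
    rw [← heq]
    exact mul_ne_zero (pow_ne_zero _ hw0) (pow_ne_zero _ hg0)
  have hF0 : F ≠ 0 := by
    intro h0
    rw [h0, zero_pow hs.ne', zero_mul] at hFH
    exact hFH rfl
  have hH0 : H ≠ 0 := by
    intro h0
    rw [h0, zero_pow ht.ne', mul_zero] at hFH
    exact hFH rfl
  have mF : F ∈ adjoin Ω {x, y} := aev_mem x y f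
  have mG : G ∈ adjoin Ω {x, y} := aev_mem x y g
  have mH : H ∈ adjoin Ω {x, y} := aev_mem x y h
  -- change of the generator by an element of the plane
  have hgen : ∀ q : M, q ∈ adjoin Ω {x, y} → q ≠ 0 →
      Uniruled Ω (adjoin Ω {x, y, w * q} : IntermediateField Ω M) 2 →
      Uniruled Ω (adjoin Ω {x, y, w} : IntermediateField Ω M) 2 := by
    intro q hq hq0 hU
    refine uniruled_adjoin (AlgHom.id Ω M) _ _ ?_ hU
    have mw : w * q ∈ adjoin Ω {x, y, w * q} := subset_adjoin _ _ (by simp)
    have hle : adjoin Ω {x, y} ≤ adjoin Ω {x, y, w * q} := IntermediateField.adjoin.mono _ _ _ (by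
      rintro a (rfl | rfl)
      · simp
      · simp)
    rintro a (rfl | rfl | rfl)
    · exact subset_adjoin _ _ (by simp)
    · exact subset_adjoin _ _ (by simp)
    · have h1 := div_mem mw (hle hq)
      rw [mul_div_cancel_right₀ _ hq0] at h1
      exact h1
  rcases hexc with h1 | h2 | h3
  · obtain ⟨m, hm⟩ := h1
    have hm0 : 0 < m := by
      rcases Nat.eq_zero_or_pos m with h2 | h2
      · rw [h2, mul_zero] at hm
        omega
      · exact h2
    have hnt : n.Coprime t := Nat.Coprime.coprime_dvd_left ⟨m, hm⟩ hst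
    refine hgen (G ^ m / F ^ m) (div_mem (pow_mem mG m) (pow_mem mF m))
      (div_ne_zero (pow_ne_zero _ hg0) (pow_ne_zero _ hF0)) ?_
    refine uni_power hnt hn x y _ (H / G) (div_mem mH mG) (div_ne_zero hH0 hg0)
      (mul_ne_zero hw0 (div_ne_zero (pow_ne_zero _ hg0) (pow_ne_zero _ hF0))) ?_ ?_
    · rw [mul_pow, div_pow, ← pow_mul, ← pow_mul, mul_comm m n, ← hm, div_pow, mul_div_assoc',
        div_eq_div_iff (pow_ne_zero _ hF0) (pow_ne_zero _ hg0)]
      rw [pow_add] at heq
      linear_combination heq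
    · intro u hu0 hu
      have h2 : Uniruled Ω (adjoin Ω {x, y, u⁻¹} : IntermediateField Ω M) 2 := by
        refine uni_binomial (a := a) (b := b) (c := m * c) (n := n) ?_ hn h g ?_ ?_ x y _ hg0 ?_
        · rcases Nat.eq_zero_or_pos c with h3 | h3
          · rw [h3] at hpos ⊢
            omega
          · have := Nat.mul_pos hm0 h3
            omega
        · intro m' hm'
          have h3 := hh m' hm'
          have h4 : m * c * n = c * s := by rw [hm]; ring
          have h5 : c ≤ t * c := Nat.le_mul_of_pos_left _ ht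
          rw [h4]
          rw [mul_add, mul_comm c t] at h3
          omega
        · intro m' hm'
          have h3 := hg m' hm'
          have h5 : c ≤ t * c := Nat.le_mul_of_pos_left _ ht
          rw [mul_comm c t] at h3
          omega
        · rw [inv_pow, hu]
          change (H / G)⁻¹ * H = G
          rw [inv_div, div_mul_cancel₀ _ hH0]
      refine uniruled_adjoin (AlgHom.id Ω M) _ _ ?_ h2
      have mu : u⁻¹ ∈ adjoin Ω {x, y, u⁻¹} := subset_adjoin _ _ (by simp)
      rintro a (rfl | rfl | rfl)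
      · exact subset_adjoin _ _ (by simp)
      · exact subset_adjoin _ _ (by simp)
      · have h3 := inv_mem mu
        rw [inv_inv] at h3
        exact h3
  · obtain ⟨m, hm⟩ := h2
    have hm0 : 0 < m := by
      rcases Nat.eq_zero_or_pos m with h2 | h2
      · rw [h2, mul_zero] at hm
        omega
      · exact h2
    have hns : n.Coprime s := Nat.Coprime.coprime_dvd_left ⟨m, hm⟩ hst.symm
    refine hgen (G ^ m / H ^ m) (div_mem (pow_mem mG m) (pow_mem mH m))
      (div_ne_zero (pow_ne_zero _ hg0) (pow_ne_zero _ hH0)) ?_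
    refine uni_power hns hn x y _ (F / G) (div_mem mF mG) (div_ne_zero hF0 hg0)
      (mul_ne_zero hw0 (div_ne_zero (pow_ne_zero _ hg0) (pow_ne_zero _ hH0))) ?_ ?_
    · rw [mul_pow, div_pow, ← pow_mul, ← pow_mul, mul_comm m n, ← hm, div_pow, mul_div_assoc',
        div_eq_div_iff (pow_ne_zero _ hH0) (pow_ne_zero _ hg0)]
      rw [pow_add] at heq
      linear_combination heq
    · intro u hu0 hu
      refine uni_binomial (a := a) (b := b) (c := m * c) (n := n) ?_ hn g f ?_ ?_ x y _ hF0 ?_
      · rcases Nat.eq_zero_or_pos c with h3 | h3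
        · rw [h3] at hpos ⊢
          omega
        · have := Nat.mul_pos hm0 h3
          omega
      · intro m' hm'
        have h3 := hg m' hm'
        have h4 : m * c * n = c * t := by rw [hm]; ring
        have h5 : c ≤ m * c := Nat.le_mul_of_pos_left _ hm0
        rw [h4]
        omega
      · intro m' hm'
        have h3 := hf m' hm'
        have h5 : c ≤ m * c := Nat.le_mul_of_pos_left _ hm0
        omega
      · rw [hu]
        change F / G * G = F
        rw [div_mul_cancel₀ _ hg0]
  · obtain ⟨m, hm⟩ := h3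
    have hm0 : 0 < m := by
      rcases Nat.eq_zero_or_pos m with h2 | h2
      · rw [h2, mul_zero] at hm
        omega
      · exact h2
    have hns : n.Coprime s := by
      refine Nat.Coprime.coprime_dvd_left ⟨m, hm⟩ ?_
      rw [Nat.coprime_self_add_left]
      exact hst.symm
    refine hgen (G ^ m / H ^ m) (div_mem (pow_mem mG m) (pow_mem mH m))
      (div_ne_zero (pow_ne_zero _ hg0) (pow_ne_zero _ hH0)) ?_
    refine uni_power hns hn x y _ (F / H) (div_mem mF mH) (div_ne_zero hF0 hH0)
      (mul_ne_zero hw0 (div_ne_zero (pow_ne_zero _ hg0) (pow_ne_zero _ hH0))) ?_ ?_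
    · rw [mul_pow, div_pow, ← pow_mul, ← pow_mul, mul_comm m n, ← hm, div_pow, mul_div_assoc',
        div_eq_div_iff (pow_ne_zero _ hH0) (pow_ne_zero _ hH0), heq, pow_add]
      ring
    · intro u hu0 hu
      refine uni_binomial (a := a) (b := b) (c := m * c) (n := n) ?_ hn h f ?_ ?_ x y _ hF0 ?_
      · rcases Nat.eq_zero_or_pos c with h3 | h3
        · rw [h3] at hpos ⊢
          omega
        · have := Nat.mul_pos hm0 h3
          omega
      · intro m' hm'
        have h3 := hh m' hm'
        have h4 : m * c * n = c * (s + t) := by rw [hm]; ring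
        have h5 : c ≤ m * c := Nat.le_mul_of_pos_left _ hm0
        rw [h4]
        omega
      · intro m' hm'
        have h3 := hf m' hm'
        have h5 : c ≤ m * c := Nat.le_mul_of_pos_left _ hm0
        omega
      · rw [hu]
        change F / H * H = F
        rw [div_mul_cancel₀ _ hH0]

/-- **the surfaces of the excluded characters are uniruled** -/
theorem exc_tri {k : Type} [Field k] [Finite k] {a b c n s t : ℕ} (hn : n ≠ 0)
    (habc : 0 < a + b + c) (hst : s.Coprime t) (hs : 0 < s) (ht : 0 < t)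
    (hexc : n ∣ s ∨ n ∣ t ∨ n ∣ s + t) (f g h : MvPolynomial (Fin 2) k)
    (hf : ∀ m ∈ f.support, a * m 0 + b * m 1 + c * 0 ≤ a + b + c)
    (hg : ∀ m ∈ g.support, a * m 0 + b * m 1 + c * t ≤ a + b + c)
    (hh : ∀ m ∈ h.support, a * m 0 + b * m 1 + c * (s + t) ≤ a + b + c)
    (α : Localization.Away (f * g * h))
    (hα : α * loc (f * g * h) (g ^ (s + t)) = loc (f * g * h) (f ^ s * h ^ t)) :
    IsUniruled 2 (AdjoinRoot (X ^ n - C α : (Localization.Away (f * g * h))[X])) := by
  intro Ω N _ _ _ _ φ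
  obtain ⟨ψ, ρ, x, y, w, h1, h2, h3⟩ := two_coord Ω (f * g * h) α φ
  refine uniruled_adjoin (AlgHom.id Ω N) _ _ h3 ?_
  have hu : ρ (loc (f * g * h) (f * g * h)) ≠ 0 :=
    ((IsLocalization.Away.algebraMap_isUnit (f * g * h)).map ρ).ne_zero
  rw [h1, map_mul, map_mul, map_mul, map_mul] at hu
  have hF := left_ne_zero_of_mul (left_ne_zero_of_mul hu)
  have hG := right_ne_zero_of_mul (left_ne_zero_of_mul hu)
  have hH := right_ne_zero_of_mul hu
  have h4 := congrArg ρ hα
  rw [map_mul, h1, h1, map_pow, map_pow, map_mul, map_mul, map_pow, map_pow, map_pow,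
    map_pow] at h4
  have hρ : ρ α ≠ 0 := by
    intro h0
    rw [h0, zero_mul] at h4
    exact mul_ne_zero (pow_ne_zero _ hF) (pow_ne_zero _ hH) h4.symm
  have hw : w ≠ 0 := by
    rintro rfl
    rw [zero_pow hn] at h2
    exact hρ h2.symm
  refine exc_uni x y w (Nat.pos_of_ne_zero hn) hw habc hst hs ht hexc (MvPolynomial.map ψ f)
    (MvPolynomial.map ψ g) (MvPolynomial.map ψ h) (deg_map hf ψ)
    (deg_map hg ψ) (deg_map hh ψ) hG ?_
  rw [h2, h4]

end Pool.Agent.Helper9.TF
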