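import Pool.Agent.Helper9.TF.Defs
import Pool.Agent.Helper9.TR.Twist

/-!
# Points of open subsets of the plane over a finite field
-/

set_option autoImplicit false

namespace Pool.Agent.Helper9.TF

open Pool.Agent.Helper75.QC (Uniruled)

/-- homomorphisms from a finite field to an extension of an algebraically closed field -/
theorem const_mem {k : Type} [Field k] [Finite k] (Ω : Type) {N : Type} [Field Ω] [IsAlgClosed Ω]
    [Field N] [Algebra Ω N] (φ : k →+* N) (c : k) : ∃ e : Ω, algebraMap Ω N e = φ c := by
  classical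
  have := Fintype.ofFinite k
  have h0 : (Polynomial.X ^ Fintype.card k - Polynomial.X : Polynomial Ω) ≠ 0 :=
    FiniteField.X_pow_card_sub_X_ne_zero Ω Fintype.one_lt_card
  have h2 : φ c ^ Fintype.card k = φ c := by
    rw [← map_pow, FiniteField.pow_card]
  have h3 : Polynomial.aeval (φ c)
      (Polynomial.X ^ Fintype.card k - Polynomial.X : Polynomial Ω) = 0 := by
    rw [map_sub, Polynomial.aeval_X_pow, Polynomial.aeval_X, h2, sub_self]
  have h5 : IsIntegral Ω (φ c) := (show IsAlgebraic Ω (φ c) from ⟨_, h0, h3⟩).isIntegral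
  exact minpoly.mem_range_of_degree_eq_one Ω (φ c)
    (IsAlgClosed.degree_eq_one_of_irreducible Ω (minpoly.irreducible h5))

/-- the homomorphism to the algebraically closed field -/
theorem exists_const {k : Type} [Field k] [Finite k] (Ω : Type) {N : Type} [Field Ω]
    [IsAlgClosed Ω] [Field N] [Algebra Ω N] (φ : k →+* N) :
    ∃ ψ : k →+* Ω, (algebraMap Ω N).comp ψ = φ := by
  choose g hg using const_mem Ω φ
  have hinj := (algebraMap Ω N).injective
  refine ⟨{ toFun := g, map_one' := ?_, map_mul' := ?_, map_zero' := ?_, map_add' := ?_ }, ?_⟩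
  · apply hinj
    rw [hg, map_one, map_one]
  · intro a b
    apply hinj
    rw [hg, map_mul, map_mul, hg, hg]
  · apply hinj
    rw [hg, map_zero, map_zero]
  · intro a b
    apply hinj
    rw [hg, map_add, map_add, hg, hg]
  · exact RingHom.ext hg

/-- polynomials over the finite field as polynomials over the algebraically closed field -/
theorem exists_pol {k : Type} [Field k] [Finite k] (Ω : Type) {N : Type} [Field Ω] [IsAlgClosed Ω]
    [Field N] [Algebra Ω N] (φ : MvPolynomial (Fin 2) k →+* N) :
    ∃ ψ : k →+* Ω, ∀ f : MvPolynomial (Fin 2) k, φ f =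
      MvPolynomial.aeval ![φ (MvPolynomial.X 0), φ (MvPolynomial.X 1)] (MvPolynomial.map ψ f) := by
  obtain ⟨ψ, hψ⟩ := exists_const Ω (φ.comp MvPolynomial.C)
  refine ⟨ψ, fun f => ?_⟩
  have h1 : φ = ((MvPolynomial.aeval (R := Ω) ![φ (MvPolynomial.X 0), φ (MvPolynomial.X 1)] :
      MvPolynomial (Fin 2) Ω →ₐ[Ω] N) : MvPolynomial (Fin 2) Ω →+* N).comp
      (MvPolynomial.map ψ) := by
    apply MvPolynomial.ringHom_ext
    · intro c
      rw [RingHom.comp_apply, MvPolynomial.map_C]
      have h2 := RingHom.congr_fun hψ c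
      rw [RingHom.comp_apply, RingHom.comp_apply] at h2
      rw [← h2]
      exact (MvPolynomial.aeval_C _ _).symm
    · intro i
      rw [RingHom.comp_apply, MvPolynomial.map_X]
      refine Eq.trans ?_ (MvPolynomial.aeval_X _ _).symm
      fin_cases i <;> rfl
  exact RingHom.congr_fun h1 f

/-- the map to the localisation -/
noncomputable abbrev loc {k : Type} [Field k] (f : MvPolynomial (Fin 2) k) :
    MvPolynomial (Fin 2) k →+* Localization.Away f :=
  algebraMap (MvPolynomial (Fin 2) k) (Localization.Away f)

/-- the elements of the localisation -/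
theorem loc_mem {k : Type} [Field k] [Finite k] {Ω N : Type} [Field Ω] [IsAlgClosed Ω] [Field N]
    [Algebra Ω N] (f : MvPolynomial (Fin 2) k) (φ : Localization.Away f →+* N)
    (K : IntermediateField Ω N) (h0 : φ (loc f (MvPolynomial.X 0)) ∈ K)
    (h1 : φ (loc f (MvPolynomial.X 1)) ∈ K) (a : Localization.Away f) : φ a ∈ K := by
  have h2 : ∀ g : MvPolynomial (Fin 2) k, φ (loc f g) ∈ K := by
    intro g
    induction g using MvPolynomial.induction_on with
    | C c =>
      obtain ⟨e, he⟩ := const_mem Ω ((φ.comp (loc f)).comp MvPolynomial.C) c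
      have h3 : φ (loc f (MvPolynomial.C c)) = algebraMap Ω N e := he.symm
      rw [h3]
      exact K.algebraMap_mem e
    | add g g' hg hg' =>
      rw [map_add, map_add]
      exact add_mem hg hg'
    | mul_X g i hg =>
      rw [map_mul, map_mul]
      refine mul_mem hg ?_
      fin_cases i
      · exact h0
      · exact h1
  obtain ⟨g, s, rfl⟩ := IsLocalization.exists_mk'_eq (Submonoid.powers f) a
  have h3 : φ (IsLocalization.mk' _ g s) * φ (loc f (s : MvPolynomial (Fin 2) k)) =
      φ (loc f g) := by
    rw [← map_mul, IsLocalization.mk'_spec]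
  have hu : φ (loc f (s : MvPolynomial (Fin 2) k)) ≠ 0 :=
    ((IsLocalization.map_units (Localization.Away f) s).map φ).ne_zero
  rw [eq_div_of_mul_eq hu h3]
  exact div_mem (h2 g) (h2 s)

end Pool.Agent.Helper9.TF
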