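import Pool.Agent.Helper9.TF.Small
import Pool.Agent.Helper9.TP.Forms

/-!
# Sums of small forms over the weighted plane
-/

set_option autoImplicit false

namespace Pool.Agent.Helper9.TF

open Pool.Agent.Helper29.CQ (FormalClass)
open Pool.Agent.Helper29.PF (plane_closed tower_forms fsum fsum_support fsum_indep)
open Pool.Agent.Helper67.CQ (GoodD pows_sub_one)
open Pool.Agent.Helper67.SF (Independent comp mem_pows)
open MvPolynomial (C X map rename)

variable {p : ℕ} {P : ∀ (A : Type) [CommRing A], Prop} {k : Type} [Field k]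

/-- sums of forms in disjoint variables -/
theorem good_sum [Finite k] [CharP k p] (hp : p.Prime) (hP : FormalClass p P) {m : ℕ}
    {σ : Fin m → Type} [∀ j, Fintype (σ j)] {F : ∀ j, MvPolynomial (σ j) k} {n : Fin m → ℕ}
    (hF : ∀ j, GoodD P (F j) (n j)) {e : ℕ} (he : 0 < e) (hne : ∀ j, n j ∣ e) :
    GoodD P (comp (fsum (fun _ : Fin m => (1 : k)) fun _ => 1) F) e := by
  have hk : (p : k) = 0 := CharP.cast_eq_zero k p
  have hw : MvPolynomial.IsWeightedHomogeneous (fun j => (n j : ℤ) * ((e / n j : ℕ) : ℤ))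
      (fsum (fun _ : Fin m => (1 : k)) fun _ => 1) (e : ℤ) := by
    intro u hu
    obtain ⟨i, rfl⟩ := fsum_support hu
    rw [Finsupp.weight_single, one_smul, ← Nat.cast_mul, Nat.mul_div_cancel' (hne i)]
  have hI := fsum_indep (fun _ : Fin m => (1 : k)) (n := fun _ => 1) fun _ => one_pos
  refine GoodD.comp hP hk hF he.ne' hw (mem_pows hp hP hk hI fun j => (hF j).1) ?_
  rw [← pows_sub_one]
  exact mem_pows hp hP hk (hI.sub_one (by exact_mod_cast he.ne') hw) fun j => (hF j).1

/-- **towers** -/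
theorem sum_tower [Finite k] [CharP k p] (hp : p.Prime) (hP : FormalClass p P) {B : Type}
    [CommRing B] [Algebra k B] (hB : Algebra.FiniteType k B) {a b : B} {m : ℕ}
    {σ : Fin m → Type} [∀ j, Fintype (σ j)] {F : ∀ j, MvPolynomial (σ j) k} {n : Fin m → ℕ}
    (hF : ∀ j, GoodD P (F j) (n j)) {e : ℕ} (he : 0 < e) (hne : ∀ j, n j ∣ e)
    (h1 : P (AdjoinRoot (Polynomial.C b * Polynomial.X ^ e - Polynomial.C a : Polynomial B)))
    (h2 : P (B ⧸ Ideal.span {a})) (h3 : P (B ⧸ Ideal.span {b, a})) :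
    P (MvPolynomial (Σ j, σ j) B ⧸
      Ideal.span {C b * map (algebraMap k B) (∑ j, rename (Sigma.mk j) (F j)) - C a}) := by
  have hk : (p : k) = 0 := CharP.cast_eq_zero k p
  have h4 := tower_forms hP hk hB (good_sum hp hP hF he hne) h1 h2 h3
  have h5 : comp (fsum (fun _ : Fin m => (1 : k)) fun _ => 1) F =
      ∑ j, rename (Sigma.mk j) (F j) := by
    simp only [comp, fsum, map_sum, map_mul, map_pow, MvPolynomial.aeval_X, map_one, one_mul,
      pow_one]
  rw [h5] at h4
  exact h4

/-- **Sums of small forms over the plane** -/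
theorem small_sum (hp : p.Prime) (hP : MotivicClass p P) [Finite k] [CharP k p] {m : ℕ}
    {σ : Fin m → Type} [∀ j, Fintype (σ j)] {n : Fin m → ℕ} (F : ∀ j, MvPolynomial (σ j) k)
    (hF : ∀ j, IsSmall (F j) (n j)) {e : ℕ} (he : 0 < e) (hne : ∀ j, n j ∣ e)
    {A B : MvPolynomial (Fin 2) k} (h : IsGood e A B) :
    P (MvPolynomial (Σ j, σ j) (MvPolynomial (Fin 2) k) ⧸
      Ideal.span {C B * map C (∑ j, rename (Sigma.mk j) (F j)) - C A}) := by
  have hk : (p : k) = 0 := CharP.cast_eq_zero k p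
  exact sum_tower hp hP.formal inferInstance (fun j => (hF j).good hp hP) he hne
    (good_gen hp hP he h) (plane_closed hP.formal hk _) (plane_closed hP.formal hk _)

end Pool.Agent.Helper9.TF
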