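import Pool.Agent.Helper9.TF.Tri
import Pool.Agent.Helper40.SD.Weighted

/-!
# The covers `w ^ n = f(x, y)`, `n` odd
-/

set_option autoImplicit false

namespace Pool.Agent.Helper9.TF

open Polynomial
open Pool.Agent.Helper75.QC (Uniruled)
open Pool.Agent.Helper40.SD (uniruled_adjoin uni_weighted)
open IntermediateField (adjoin subset_adjoin)
open Pool.Agent.Helper29.CQ (FormalClass)
open Pool.Agent.Helper71.IC (Fg)
open Pool.Agent.Helper9.QP
open Pool.Agent.Helper9.TP
open Pool.Agent.Helper67.CQ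

section

variable {k : Type} [Field k]

theorem aeval_swap {Ω N : Type} [Field Ω] [Field N] [Algebra Ω N] (x y : N)
    (F : MvPolynomial (Fin 2) Ω) :
    MvPolynomial.aeval ![y, x] (MvPolynomial.rename (Equiv.swap (0 : Fin 2) 1) F) =
      MvPolynomial.aeval ![x, y] F := by
  rw [MvPolynomial.aeval_rename]
  congr 2
  funext i
  fin_cases i
  · change (![y, x] : Fin 2 → N) (Equiv.swap 0 1 0) = x
    rw [Equiv.swap_apply_left]
    rfl
  · change (![y, x] : Fin 2 → N) (Equiv.swap 0 1 1) = y
    rw [Equiv.swap_apply_right]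
    rfl

/-- the threefolds `v (1 - v) = σ ^ n F(x, y)`, `n` odd -/
theorem odd_weighted {Ω N : Type} [Field Ω] [IsAlgClosed Ω] [Field N] [Algebra Ω N]
    (F : MvPolynomial (Fin 2) Ω) {n a b d : ℕ} (hn : Odd n) (hab : 0 < a + b)
    (hF : ∀ m ∈ F.support, a * m 0 + b * m 1 ≤ d) (hd : (n - 1) * d ≤ 2 * n * (a + b))
    (x y v s : N) (hs0 : s ≠ 0) (hs : v * (1 - v) = s ^ n * MvPolynomial.aeval ![x, y] F) :
    Uniruled Ω (adjoin Ω {x, y, v, s} : IntermediateField Ω N) 3 := by
  classical
  rcases Nat.eq_zero_or_pos a with ha | ha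
  · subst ha
    have h1 : ({x, y, v, s} : Set N) = {y, x, v, s} := by
      ext z
      simp only [Set.mem_insert_iff, Set.mem_singleton_iff]
      tauto
    rw [h1]
    refine uni_weighted (MvPolynomial.rename (Equiv.swap (0 : Fin 2) 1) F) (p := b) (q := 0)
      (D := d) hn.pos (by omega) ?_ (Or.inl ⟨hn, by rw [add_comm b 0]; exact hd⟩) y x v s hs0 ?_
    · intro m hm
      rw [MvPolynomial.support_rename_of_injective (Equiv.injective _), Finset.mem_image] at hm
      obtain ⟨m', hm', rfl⟩ := hm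
      have h2 := hF m' hm'
      have h3 : (Finsupp.mapDomain (Equiv.swap (0 : Fin 2) 1) m') 0 = m' 1 := by
        have := Finsupp.mapDomain_apply (Equiv.injective (Equiv.swap (0 : Fin 2) 1)) m' 1
        rw [Equiv.swap_apply_right] at this
        exact this
      rw [h3]
      omega
    · rw [aeval_swap]
      exact hs
  · exact uni_weighted F (p := a) (q := b) (D := d) hn.pos ha hF (Or.inl ⟨hn, hd⟩) x y v s hs0 hs

/-- **the threefolds `α z ^ n = v (1 - v)`, `n` odd, are uniruled** -/
theorem odd_uni [Finite k] {a b d n : ℕ} (hn : Odd n) (hab : 0 < a + b) (f : MvPolynomial (Fin 2) k)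
    (hf : ∀ m ∈ f.support, a * m 0 + b * m 1 ≤ d) (hd : (n - 1) * d ≤ 2 * n * (a + b)) :
    IsUniruled 3 (AdjoinRoot (C (C (loc f f) * X ^ n) - X ^ 1 * (1 - X) ^ 1 :
      (Localization.Away f)[X][X])) := by
  intro Ω N _ _ _ _ φ
  obtain ⟨ψ, ρ, x, y, z, v, h1, h2, h3⟩ := tri_coord Ω f (loc f f) φ
  refine uniruled_adjoin (AlgHom.id Ω N) _ _ h3 ?_
  have hu : ρ (loc f f) ≠ 0 := ((IsLocalization.Away.algebraMap_isUnit f).map ρ).ne_zero
  by_cases h0 : z = 0 ∨ v = 0 ∨ 1 - v = 0
  · exact uni_degen hn.pos.ne' hu h2 h0 one_ne_zero one_ne_zero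
  push Not at h0
  refine odd_weighted (MvPolynomial.map ψ f) hn hab
    (fun m hm => hf m (MvPolynomial.support_map_subset _ _ hm)) hd x y v z h0.1 ?_
  rw [← h1, mul_comm (z ^ n), h2, pow_one, pow_one]

end

variable {p : ℕ} {P : ∀ (A : Type) [CommRing A], Prop} {k : Type} [Field k]

theorem p_away [Finite k] (hP : FormalClass p P) (hk : (p : k) = 0) {f : MvPolynomial (Fin 2) k}
    (hf : f ≠ 0) : P (Localization.Away f) :=
  hP.opn _ f (plane hP hk) (plane_curve hP hk hf)

theorem root_one {T : Type} [CommRing T] (a : T) :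
    Nonempty (T ≃+* AdjoinRoot (X ^ 1 - C a : T[X])) := by
  have e : (X ^ 1 - C a : T[X]) = X - C a := by rw [pow_one]
  rw [e]
  exact ⟨(Polynomial.quotientSpanXSubCAlgEquiv a).symm.toRingEquiv⟩

/-- **the cyclic covers of odd degree** -/
theorem odd_gen (hp : p.Prime) (hP : MotivicClass p P) [Finite k] [CharP k p] {a b d : ℕ}
    (hab : 0 < a + b) (n : ℕ) (hn : Odd n) (hd : (n - 1) * d ≤ 2 * n * (a + b))
    (f : MvPolynomial (Fin 2) k) (hf : ∀ m ∈ f.support, a * m 0 + b * m 1 ≤ d) :
    P (Gen (MvPolynomial (Fin 2) k) n 1 f) := by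
  have hpp : Fact p.Prime := ⟨hp⟩
  have hk : (p : k) = 0 := CharP.cast_eq_zero k p
  induction n using Nat.strong_induction_on generalizing f with
  | _ n ih =>
  by_cases hpn : p ∣ n
  · obtain ⟨m, rfl⟩ := hpn
    have hm : Odd m := (Nat.odd_mul.1 hn).2
    obtain ⟨φ₀, hφ₀⟩ := ex_root hk f
    refine gen_insep hP.formal hk 1 f 1 (MvPolynomial.map φ₀ f) ?_ hφ₀ ?_
    · rw [map_one, one_pow]
    · refine ih m ?_ hm ?_ _ (fun m hm => hf m (MvPolynomial.support_map_subset _ _ hm))
      · have := hm.pos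
        nlinarith [hp.two_le]
      · obtain ⟨j, hj⟩ : ∃ j, m = j + 1 := ⟨m - 1, by have := hm.pos; omega⟩
        obtain ⟨q, hq⟩ : ∃ q, p = q + 1 := ⟨p - 1, by have := hp.two_le; omega⟩
        have h1 : p * m - 1 = p * j + q := by
          rw [hj, hq, Nat.mul_succ]
          omega
        rw [h1] at hd
        have h2 : m - 1 = j := by omega
        rw [h2]
        have h3 : p * (j * d) ≤ p * (2 * m * (a + b)) := by
          calc p * (j * d) ≤ (p * j + q) * d := by
                rw [add_mul, mul_assoc]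
                exact Nat.le_add_right _ _
            _ ≤ 2 * (p * m) * (a + b) := hd
            _ = p * (2 * m * (a + b)) := by ring
        exact Nat.le_of_mul_le_mul_left h3 hp.pos
  · refine gen_mem hP.formal hk hn.pos.ne' 1 f fun hA hB => ?_
    refine qa_big hP.formal hk hn.pos.ne' hA (N := 1) (one_dvd _) ?_
    refine qa_model hP.formal (isLC_away f) (a := loc f f) ?_ ?_
    · rw [map_one, mul_one]
    · refine hP.untwist _ n 1 1 _ (fg_loc hk f) (IsLocalization.Away.algebraMap_isUnit f) hpn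
        (by rw [Nat.gcd_one_left]; exact Nat.coprime_one_left n) ?_ (odd_uni hn hab f hf hd)
      intro m hmn hm
      obtain rfl : m = 1 := by
        have h1 : m ∣ 2 := by
          rcases hm with h | h | h
          · exact h.trans (one_dvd 2)
          · exact h.trans (one_dvd 2)
          · exact h
        rcases (Nat.dvd_prime Nat.prime_two).1 h1 with h2 | h2
        · exact h2
        · subst h2
          exact absurd (even_iff_two_dvd.2 hmn) (Nat.not_even_iff_odd.2 hn)
      obtain ⟨e⟩ := root_one (loc f f)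
      exact hP.formal.iso _ _ e (p_away hP.formal hk hA)

end Pool.Agent.Helper9.TF
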