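import Pool.Agent.Helper9.TF.Defs

/-!
# Good quotients and small forms: definitions
-/

set_option autoImplicit false

namespace Pool.Agent.Helper9.TF

open MvPolynomial

variable {k σ : Type} [Field k]

/-- `A / B = f ^ s h ^ t / g ^ (s + t)`, where for some weights `a, b, c ≥ 0` of `x, y, r`, not all
zero, the degree of `f - r ^ t g + r ^ (s + t) h` is at most `a + b + c`. -/
def IsTrinomial (A B : MvPolynomial (Fin 2) k) : Prop :=
  ∃ (a b c s t : ℕ) (f g h : MvPolynomial (Fin 2) k), 0 < a + b + c ∧ 0 < s ∧ 0 < t ∧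
    (∀ e ∈ f.support, a * e 0 + b * e 1 ≤ a + b + c) ∧
    (∀ e ∈ g.support, a * e 0 + b * e 1 + c * t ≤ a + b + c) ∧
    (∀ e ∈ h.support, a * e 0 + b * e 1 + c * (s + t) ≤ a + b + c) ∧
    A = f ^ s * h ^ t ∧ B = g ^ (s + t)

/-- `A / B` is `n`-good: `IsTrinomial A B`, or `n` is odd, `B = 1`, and the degree of `A` is at most
`2 (a + b) n / (n - 1)` for some weights `a, b ≥ 0` of `x, y`, not both zero. -/
def IsGood (n : ℕ) (A B : MvPolynomial (Fin 2) k) : Prop :=
  IsTrinomial A B ∨ Odd n ∧ B = 1 ∧ ∃ a b : ℕ, 0 < a + b ∧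
    ∀ e ∈ A.support, (n - 1) * (a * e 0 + b * e 1) ≤ 2 * n * (a + b)

/-- `F(x, y, z)` is a ternary form of degree `n` for integral weights, the weight of `z` is one, and
`F(x, y, 1)` is `n`-good; for example any homogeneous ternary form of degree `n` from one to
five. -/
def IsTernary (F : MvPolynomial σ k) (n : ℕ) : Prop :=
  ∃ (e : σ ≃ Fin 3) (w : Fin 3 → ℤ), w 2 = 1 ∧ IsWeightedHomogeneous (w ∘ e) F (n : ℤ) ∧
    IsGood n (aeval ((![X 0, X 1, 1] : Fin 3 → MvPolynomial (Fin 2) k) ∘ e) F) 1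

/-- Small forms of degree `n > 0`: the ternary forms as in `IsTernary`, and polynomials `F` which
are weighted homogeneous of degree `n` for some integral weights, and which have at most two
variables, or total degree at most two, or at most four variables and total degree at most
three. -/
def IsSmall [Fintype σ] (F : MvPolynomial σ k) (n : ℕ) : Prop :=
  0 < n ∧ (IsTernary F n ∨ (∃ w : σ → ℤ, IsWeightedHomogeneous w F (n : ℤ)) ∧
    (Fintype.card σ ≤ 2 ∨ F.totalDegree ≤ 2 ∨ Fintype.card σ ≤ 4 ∧ F.totalDegree ≤ 3))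

end Pool.Agent.Helper9.TF
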