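import Pool.Agent.Helper9.TF.Odd
import Pool.Agent.Helper9.TF.SmallDefs

/-!
# Good quotients and small forms
-/

set_option autoImplicit false

namespace Pool.Agent.Helper9.TF

open Pool.Agent.Helper29.CQ (FormalClass Cyc)
open Pool.Agent.Helper67.CQ (GoodD whom_cast p_two p_cubic p_quadric tern_zero tern_one deh)
open Pool.Agent.Helper67.SF (degree_sub_C p_rename)
open Pool.Agent.Helper9.QP (Gen)
open MvPolynomial (IsWeightedHomogeneous C X rename)

variable {p : ℕ} {P : ∀ (A : Type) [CommRing A], Prop} {k : Type} [Field k]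

/-- **the cyclic covers of the plane attached to good quotients** -/
theorem good_gen (hp : p.Prime) (hP : MotivicClass p P) [Finite k] [CharP k p] {n : ℕ}
    (hn : 0 < n) {A B : MvPolynomial (Fin 2) k} (h : IsGood n A B) :
    P (Gen (MvPolynomial (Fin 2) k) n B A) := by
  classical
  rcases h with ⟨a, b, c, s, t, f, g, h, h0, hs, ht, hf, hg, hh, rfl, rfl⟩ | ⟨ho, rfl, a, b, hab, hA⟩
  · exact tri_gen hp hP h0 hs ht f g h hf (fun e he => by rw [mul_comm t]; exact hg e he)
      (fun e he => by rw [mul_comm (s + t)]; exact hh e he) n hn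
  · set d := A.support.sup (fun e => a * e 0 + b * e 1) with hd
    have h1 : (n - 1) * d ≤ 2 * n * (a + b) := by
      rcases A.support.eq_empty_or_nonempty with h2 | h2
      · rw [hd, h2, Finset.sup_empty]
        exact Nat.zero_le _
      · obtain ⟨e, he, h3⟩ := Finset.exists_mem_eq_sup _ h2 (fun e => a * e 0 + b * e 1)
        rw [hd, h3]
        exact hA e he
    exact odd_gen hp hP hab n ho h1 A fun e he =>
      Finset.le_sup (f := fun e : Fin 2 →₀ ℕ => a * e 0 + b * e 1) he

theorem cyc_of_gen (hP : FormalClass p P) {n : ℕ} {f : MvPolynomial (Fin 2) k}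
    (h : P (Gen (MvPolynomial (Fin 2) k) n 1 f)) : P (Cyc n f) := by
  have e : (Polynomial.C 1 * Polynomial.X ^ n - Polynomial.C f :
      Polynomial (MvPolynomial (Fin 2) k)) = Polynomial.X ^ n - Polynomial.C f := by
    rw [map_one, one_mul]
  unfold Gen at h
  rw [e] at h
  exact h

theorem deh_rename {σ : Type} (e : σ ≃ Fin 3) (F : MvPolynomial σ k) :
    deh (rename e F) =
      MvPolynomial.aeval ((![X 0, X 1, 1] : Fin 3 → MvPolynomial (Fin 2) k) ∘ e) F := by
  rw [deh, MvPolynomial.eval₂_rename]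
  rfl

theorem whom_rename_int {σ τ : Type} {w : τ → ℤ} (e : σ → τ) {F : MvPolynomial σ k} {d : ℤ}
    (hF : IsWeightedHomogeneous (w ∘ e) F d) : IsWeightedHomogeneous w (rename e F) d := by
  intro m hm
  obtain ⟨n, rfl, hn⟩ := MvPolynomial.coeff_rename_ne_zero _ _ _ hm
  rw [← hF hn, Finsupp.weight_apply, Finsupp.weight_apply]
  exact Finsupp.sum_mapDomain_index (h := fun i c => c • w i) (fun _ => zero_smul _ _)
    (fun _ _ _ => add_smul _ _ _)

theorem IsTernary.zero (hP : FormalClass p P) [Finite k] [CharP k p] {σ : Type}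
    {F : MvPolynomial σ k} {n : ℕ} (hF : IsTernary F n) :
    P (MvPolynomial σ k ⧸ Ideal.span {F}) := by
  have hk : (p : k) = 0 := CharP.cast_eq_zero k p
  obtain ⟨e, w, hw, h, -⟩ := hF
  have h1 := p_rename hP e (F := F) (c := 0) (by
    rw [map_zero, sub_zero]
    exact tern_zero hP hk hw (whom_rename_int e h))
  rw [map_zero, sub_zero] at h1
  exact h1

theorem IsTernary.one (hp : p.Prime) (hP : MotivicClass p P) [Finite k] [CharP k p] {σ : Type}
    {F : MvPolynomial σ k} {n : ℕ} (hn : 0 < n) (hF : IsTernary F n) :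
    P (MvPolynomial σ k ⧸ Ideal.span {F - 1}) := by
  have hk : (p : k) = 0 := CharP.cast_eq_zero k p
  obtain ⟨e, w, hw, h, hg⟩ := hF
  have h1 := p_rename hP.formal e (F := F) (c := 1) (by
    rw [map_one]
    refine tern_one hP.formal hk hw hn.ne' (whom_rename_int e h) (cyc_of_gen hP.formal ?_)
    rw [deh_rename]
    exact good_gen hp hP hn hg)
  rw [map_one] at h1
  exact h1

theorem level (hp : p.Prime) (hP : FormalClass p P) [Finite k] [CharP k p] {σ : Type}
    [Fintype σ] {F : MvPolynomial σ k}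
    (h1 : Fintype.card σ ≤ 2 ∨ F.totalDegree ≤ 2 ∨ Fintype.card σ ≤ 4 ∧ F.totalDegree ≤ 3)
    (c : k) : P (MvPolynomial σ k ⧸ Ideal.span {F - C c}) := by
  have hk : (p : k) = 0 := CharP.cast_eq_zero k p
  refine p_rename hP (Fintype.equivFin σ) ?_
  have hdeg : (rename (Fintype.equivFin σ) F - C c).totalDegree ≤ F.totalDegree :=
    (degree_sub_C _ _).trans (MvPolynomial.totalDegree_rename_le _ _)
  rcases h1 with h1 | h1 | ⟨h1, h5⟩
  · exact p_two hP hk h1 _
  · exact p_quadric hp hP hk _ (hdeg.trans h1)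
  · exact p_cubic hp hP hk h1 (hdeg.trans h5)

theorem IsSmall.good (hp : p.Prime) (hP : MotivicClass p P) [Finite k] [CharP k p] {σ : Type}
    [Fintype σ] {F : MvPolynomial σ k} {n : ℕ} (hF : IsSmall F n) : GoodD P F n := by
  obtain ⟨hn, hF | ⟨h, h1⟩⟩ := hF
  · refine ⟨hn.ne', ?_, hF.zero hP.formal, hF.one hp hP hn⟩
    obtain ⟨e, w, -, h, -⟩ := hF
    exact ⟨_, h⟩
  · refine ⟨hn.ne', h, ?_, ?_⟩
    · have h2 := level hp hP.formal h1 0
      rw [map_zero, sub_zero] at h2
      exact h2
    · have h2 := level hp hP.formal h1 1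
      rw [map_one] at h2
      exact h2

/-- **homogeneous ternary forms of degree at most five** -/
theorem isTernary_five {F : MvPolynomial (Fin 3) k} {n : ℕ} (hn : 0 < n) (hn5 : n ≤ 5)
    (hF : F.IsHomogeneous n) : IsSmall F n := by
  classical
  have hsup : ∀ m ∈ (deh F).support, m 0 + m 1 ≤ n := by
    intro m hm
    obtain ⟨q, hq, h0, h1⟩ := Pool.Agent.Helper67.SF.deh_support hm
    have h2 := hF (MvPolynomial.mem_support_iff.1 hq)
    rw [Finsupp.weight_apply, Finsupp.sum_fintype _ _ (by simp), Fin.sum_univ_three] at h2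
    simp only [Pi.one_apply, smul_eq_mul, mul_one] at h2
    omega
  have hdeh : MvPolynomial.aeval ((![X 0, X 1, 1] : Fin 3 → MvPolynomial (Fin 2) k) ∘
      (Equiv.refl (Fin 3))) F = deh F := by
    rw [← deh_rename, Equiv.coe_refl, MvPolynomial.rename_id_apply]
  have hone : ∀ m ∈ (1 : MvPolynomial (Fin 2) k).support, m = 0 := by
    intro m hm
    by_contra h2
    rw [MvPolynomial.mem_support_iff, MvPolynomial.coeff_one, if_neg (Ne.symm h2)] at hm
    exact hm rfl
  refine ⟨hn, Or.inl ⟨Equiv.refl _, fun _ => 1, rfl, whom_cast (w := fun _ => 1) hF, ?_⟩⟩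
  rw [hdeh]
  rcases hn5.lt_or_eq with h4 | rfl
  · refine Or.inl ⟨1, 1, 2, 1, 1, deh F, 1, 1, by norm_num, one_pos, one_pos, ?_, ?_, ?_,
      by rw [one_pow, pow_one, mul_one], by rw [one_pow]⟩
    · intro e he
      have := hsup e he
      omega
    · intro e he
      rw [hone e he]
      simp
    · intro e he
      rw [hone e he]
      simp
  · refine Or.inr ⟨by decide, rfl, 1, 1, by norm_num, fun e he => ?_⟩
    have := hsup e he
    omega

end Pool.Agent.Helper9.TF
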