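import Pool.Agent.Helper9.TF.Exc
import Pool.Agent.Helper9.TP.FanoAll
import Pool.Agent.Helper9.TP.KCB

/-!
# Trinomials over the weighted plane, in every characteristic
-/

set_option autoImplicit false

namespace Pool.Agent.Helper9.TF

open Polynomial
open Pool.Agent.Helper29.CQ (FormalClass)
open Pool.Agent.Helper71.IC (Fg)
open Pool.Agent.Helper9.QP
open Pool.Agent.Helper9.TP
open Pool.Agent.Helper67.CQ
open Pool.Agent.Helper87.CC (IsLC isLC_std ft_of_surj ft_of_hom ft_loc ft_alg)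

variable {p : ℕ} {P : ∀ (A : Type) [CommRing A], Prop} {k : Type} [Field k]

theorem MotivicClass.formal (hP : MotivicClass p P) : FormalClass p P :=
  hP.kummer.old.toFormalClass

theorem fg_loc [Finite k] (hk : (p : k) = 0) (u : MvPolynomial (Fin 2) k) :
    Fg p (Localization.Away u) := by
  have hj := isLC_away u
  exact ⟨lc_ft hj (ft_fin 2), lc_char (algebraMap _ _) (char_fin hk 2)⟩

/-- **coprime exponents** -/
theorem uni_cop (hP : MotivicClass p P) [Finite k] [CharP k p] {n : ℕ} (hn : n ≠ 0)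
    (hpn : ¬ p ∣ n) {a b c s t : ℕ} (habc : 0 < a + b + c) (hs : 0 < s) (ht : 0 < t)
    (hst : s.Coprime t) (f₀ f₁ f₂ : MvPolynomial (Fin 2) k)
    (g₀ : ∀ m ∈ f₀.support, a * m 0 + b * m 1 ≤ a + b + c)
    (g₁ : ∀ m ∈ f₁.support, a * m 0 + b * m 1 + t * c ≤ a + b + c)
    (g₂ : ∀ m ∈ f₂.support, a * m 0 + b * m 1 + (s + t) * c ≤ a + b + c) :
    QA P n (f₀ ^ s * f₂ ^ t) (f₁ ^ (s + t)) ⊥ (f₀ * f₁ * f₂) := by
  have hk : (p : k) = 0 := CharP.cast_eq_zero k p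
  set u := f₀ * f₁ * f₂ with hu
  have hj := isLC_away u
  have hB : IsUnit (loc u (f₁ ^ (s + t))) := by
    refine unit_of_dvd (loc u) (N := s + t) ?_ hj.unit
    rw [hu, mul_pow, mul_pow]
    exact Dvd.dvd.mul_right (Dvd.intro_left _ rfl) _
  have hA : IsUnit (loc u (f₀ ^ s * f₂ ^ t)) := by
    refine unit_of_dvd (loc u) (N := s + t) ?_ hj.unit
    rw [hu, mul_pow, mul_pow, pow_add f₀, pow_add f₂]
    exact ⟨f₀ ^ t * f₁ ^ (s + t) * f₂ ^ s, by ring⟩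
  obtain ⟨α, hα⟩ := ex_b (loc u) (f₀ ^ s * f₂ ^ t) (f₁ ^ (s + t)) hB
  have hαu : IsUnit α := by
    rw [← hα] at hA
    exact isUnit_of_mul_isUnit_left hA
  have hfg : Fg p (Localization.Away u) := fg_loc hk u
  have e₀ : ∀ m ∈ f₀.support, a * m 0 + b * m 1 + c * 0 ≤ a + b + c := fun m hm => by
    have := g₀ m hm
    omega
  have e₁ : ∀ m ∈ f₁.support, a * m 0 + b * m 1 + c * t ≤ a + b + c := fun m hm => by
    have := g₁ m hm
    rw [mul_comm c]
    exact this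
  have e₂ : ∀ m ∈ f₂.support, a * m 0 + b * m 1 + c * (s + t) ≤ a + b + c := fun m hm => by
    have := g₂ m hm
    rw [mul_comm c]
    exact this
  refine qa_model hP.formal hj hα ?_
  refine hP.untwist _ n s t α hfg hαu hpn ?_ ?_ ?_
  · rw [hst.gcd_eq_one]
    exact Nat.coprime_one_left n
  · intro m hmn hm
    have hm0 : m ≠ 0 := by
      rintro rfl
      exact hn (zero_dvd_iff.1 hmn)
    refine hP.surface _ ?_ (exc_tri hm0 habc hst hs ht hm f₀ f₁ f₂ e₀ e₁ e₂ α hα)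
    have h1 := isKum_std m α
    exact ⟨h1.ft hfg.1, h1.char hfg.2⟩
  · exact uni_tri hn habc hst hs ht f₀ f₁ f₂ e₀ e₁ e₂ α hα

/-- arbitrary exponents -/
theorem uni_any (hP : MotivicClass p P) [Finite k]
    [CharP k p] {n : ℕ} (hn : n ≠ 0) (hpn : ¬ p ∣ n) {a b c s t : ℕ}
    (habc : 0 < a + b + c) (hs : 0 < s) (ht : 0 < t)
    (f₀ f₁ f₂ : MvPolynomial (Fin 2) k)
    (g₀ : ∀ m ∈ f₀.support, a * m 0 + b * m 1 ≤ a + b + c)
    (g₁ : ∀ m ∈ f₁.support, a * m 0 + b * m 1 + t * c ≤ a + b + c)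
    (g₂ : ∀ m ∈ f₂.support, a * m 0 + b * m 1 + (s + t) * c ≤ a + b + c) :
    QA P n (f₀ ^ s * f₂ ^ t) (f₁ ^ (s + t)) ⊥ (f₀ * f₁ * f₂) := by
  obtain ⟨s', t', hc, hs', ht'⟩ := Nat.exists_coprime s t
  have hd : 0 < s.gcd t := Nat.gcd_pos_of_pos_left t hs
  generalize s.gcd t = d at hs' ht' hd
  subst hs'
  subst ht'
  have hs0 : 0 < s' := Nat.pos_of_mul_pos_right hs
  have ht0 : 0 < t' := Nat.pos_of_mul_pos_right ht
  have e1 : f₀ ^ (s' * d) * f₂ ^ (t' * d) = (f₀ ^ s' * f₂ ^ t') ^ d := by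
    rw [mul_pow, ← pow_mul, ← pow_mul]
  have e2 : f₁ ^ (s' * d + t' * d) = (f₁ ^ (s' + t')) ^ d := by
    rw [← pow_mul, add_mul]
  rw [e1, e2]
  have hcd : c ≤ d * c := Nat.le_mul_of_pos_left c hd
  refine qa_pow (N := s' + t') (M := s' + t') hP.formal (CharP.cast_eq_zero k p) hd.ne'
    ?_ ?_ ?_
  · rw [mul_pow, mul_pow, pow_add f₀, pow_add f₂]
    exact ⟨f₀ ^ t' * f₁ ^ (s' + t') * f₂ ^ s', by ring⟩
  · rw [mul_pow, mul_pow]
    exact Dvd.dvd.mul_right (Dvd.intro_left _ rfl) _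
  intro k' _ _ _ ζ hζ
  have : Finite k' := Module.finite_of_finite k
  have : CharP k' p := charP_of_injective_algebraMap (algebraMap k k').injective p
  obtain ⟨u, v, huv⟩ := Nat.isCoprime_iff_coprime.2 hc
  have hu0 : ζ ^ u ≠ 0 := zpow_ne_zero u hζ
  have hv0 : ζ ^ v ≠ 0 := zpow_ne_zero v hζ
  have hζ' : ζ = (ζ ^ u) ^ s' * (ζ ^ v) ^ t' := by
    rw [← zpow_natCast, ← zpow_natCast, ← zpow_mul, ← zpow_mul, ← zpow_add₀ hζ, huv, zpow_one]
  have hu : ∀ r : k', r ≠ 0 → IsUnit (MvPolynomial.C r : MvPolynomial (Fin 2) k') := fun r hr =>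
    (isUnit_iff_ne_zero.2 hr).map MvPolynomial.C
  have key := uni_cop hP (k := k') hn hpn (a := a) (b := b) (c := d * c) (s := s')
    (t := t') (by omega) hs0 ht0 hc
    (MvPolynomial.C (ζ ^ u) * MvPolynomial.map (algebraMap k k') f₀)
    (MvPolynomial.C 1 * MvPolynomial.map (algebraMap k k') f₁)
    (MvPolynomial.C (ζ ^ v) * MvPolynomial.map (algebraMap k k') f₂)
    (supp_C_map _ fun m hm => by
      have := g₀ m hm
      omega)
    (supp_C_map _ fun m hm => by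
      have h1 := g₁ m hm
      rw [mul_assoc] at h1
      omega)
    (supp_C_map _ fun m hm => by
      have h1 := g₂ m hm
      have h2 : (s' * d + t' * d) * c = (s' + t') * (d * c) := by ring
      rw [h2] at h1
      omega)
  have e3 : (MvPolynomial.C (ζ ^ u) * MvPolynomial.map (algebraMap k k') f₀) ^ s' *
      (MvPolynomial.C (ζ ^ v) * MvPolynomial.map (algebraMap k k') f₂) ^ t' =
      MvPolynomial.C ζ * MvPolynomial.map (algebraMap k k') (f₀ ^ s' * f₂ ^ t') := by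
    conv_rhs => rw [hζ']
    rw [map_mul, map_mul, map_pow, map_pow, map_pow, map_pow]
    ring
  have e4 : (MvPolynomial.C 1 * MvPolynomial.map (algebraMap k k') f₁) ^ (s' + t') =
      MvPolynomial.map (algebraMap k k') (f₁ ^ (s' + t')) := by
    rw [MvPolynomial.C_1, one_mul, map_pow]
  rw [e3, e4] at key
  have e5 : MvPolynomial.C (ζ ^ u) * MvPolynomial.map (algebraMap k k') f₀ *
      (MvPolynomial.C 1 * MvPolynomial.map (algebraMap k k') f₁) *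
      (MvPolynomial.C (ζ ^ v) * MvPolynomial.map (algebraMap k k') f₂) =
      MvPolynomial.map (algebraMap k k') (f₀ * f₁ * f₂) *
        (MvPolynomial.C (ζ ^ u) * MvPolynomial.C (ζ ^ v)) := by
    rw [MvPolynomial.C_1, map_mul, map_mul]
    ring
  refine qa_congr (N := 1) (M := 1) ?_ ?_ key
  · rw [pow_one, e5]
    exact (((hu _ hu0).mul (hu _ hv0)).mul_right_dvd).2 dvd_rfl
  · rw [pow_one, e5]
    exact Dvd.intro _ rfl

/-- **Trinomials**, in every characteristic -/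
theorem tri_gen (hp : p.Prime) (hP : MotivicClass p P) [Finite k]
    [CharP k p] {a b c s t : ℕ} (habc : 0 < a + b + c) (hs : 0 < s) (ht : 0 < t)
    (f₀ f₁ f₂ : MvPolynomial (Fin 2) k)
    (g₀ : ∀ m ∈ f₀.support, a * m 0 + b * m 1 ≤ a + b + c)
    (g₁ : ∀ m ∈ f₁.support, a * m 0 + b * m 1 + t * c ≤ a + b + c)
    (g₂ : ∀ m ∈ f₂.support, a * m 0 + b * m 1 + (s + t) * c ≤ a + b + c) (n : ℕ) (hn : 0 < n) :
    P (Gen (MvPolynomial (Fin 2) k) n (f₁ ^ (s + t)) (f₀ ^ s * f₂ ^ t)) := by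
  refine gen_tri hp hP.formal (fun f₀ f₁ f₂ =>
    (∀ m ∈ f₀.support, a * m 0 + b * m 1 ≤ a + b + c) ∧
    (∀ m ∈ f₁.support, a * m 0 + b * m 1 + t * c ≤ a + b + c) ∧
    ∀ m ∈ f₂.support, a * m 0 + b * m 1 + (s + t) * c ≤ a + b + c) ?_ hs ht ?_ n hn f₀ f₁ f₂
    ⟨g₀, g₁, g₂⟩
  · rintro f₀ f₁ f₂ ⟨g₀, g₁, g₂⟩ ψ₀ ψ₁ ψ₂
    exact ⟨fun m hm => g₀ m (MvPolynomial.support_map_subset _ _ hm),
      fun m hm => g₁ m (MvPolynomial.support_map_subset _ _ hm),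
      fun m hm => g₂ m (MvPolynomial.support_map_subset _ _ hm)⟩
  · rintro n hn hpn f₀ f₁ f₂ ⟨g₀, g₁, g₂⟩ n₀ n₁ n₂
    exact uni_any hP hn hpn habc hs ht f₀ f₁ f₂ g₀ g₁ g₂

end Pool.Agent.Helper9.TF
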