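import Pool.Agent.Helper9.TF.Fun
import Pool.Agent.Helper9.TP.Tri

/-!
# Uniruled surfaces and threefolds
-/

set_option autoImplicit false

namespace Pool.Agent.Helper9.TF

open Polynomial
open Pool.Agent.Helper75.QC (Uniruled Acl)
open Pool.Agent.Helper40.SD (uniruled_adjoin)
open Pool.Agent.Helper9.TR (Deg uni_three uni_binomial)
open IntermediateField (adjoin subset_adjoin)

theorem subset_acl {Ω N : Type} [Field Ω] [Field N] [Algebra Ω N] (S : Set N) {a : N}
    (h : a ∈ S) : a ∈ Acl Ω S :=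
  isAlgebraic_algebraMap (⟨a, subset_adjoin Ω S h⟩ : adjoin Ω S)

/-- a field generated by elements of `Ω(x, y)` -/
theorem uni_plane {Ω N : Type} [Field Ω] [Field N] [Algebra Ω N] (x y : N) (S : Set N)
    (hS : ∀ a ∈ S, a ∈ adjoin Ω {x, y}) :
    Uniruled Ω (adjoin Ω S : IntermediateField Ω N) 3 := by
  classical
  refine ⟨N, inferInstance, inferInstance, (adjoin Ω S).val, {x, y}, 0, ?_, fun a => ?_⟩
  · exact lt_of_le_of_lt Finset.card_le_two (by norm_num)
  · have h1 : (adjoin Ω S : IntermediateField Ω N) ≤ adjoin Ω {x, y} :=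
      IntermediateField.adjoin_le_iff.2 hS
    have h2 : (adjoin Ω {x, y} : IntermediateField Ω N) ≤
        adjoin Ω (Acl Ω ((({x, y} : Finset N)) : Set N) ∪ {0}) := by
      apply IntermediateField.adjoin_le_iff.2
      rintro b (rfl | rfl)
      · refine subset_adjoin _ _ (Or.inl ?_)
        exact subset_acl _ (by simp)
      · refine subset_adjoin _ _ (Or.inl ?_)
        exact subset_acl _ (by simp)
    exact h2 (h1 a.2)

theorem root_mem {Ω N T : Type} [CommRing T] [Field Ω] [Field N] [Algebra Ω N] (G : T[X])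
    (φ : AdjoinRoot G →+* N) (K : IntermediateField Ω N)
    (h : ∀ c : T, φ (AdjoinRoot.of G c) ∈ K) (hv : φ (AdjoinRoot.root G) ∈ K)
    (c : AdjoinRoot G) : φ c ∈ K := by
  induction c using AdjoinRoot.induction_on with
  | ih g =>
    induction g using Polynomial.induction_on' with
    | add g g' hg hg' =>
      rw [map_add, map_add]
      exact add_mem hg hg'
    | monomial l c =>
      have h2 : AdjoinRoot.mk G (monomial l c) = AdjoinRoot.of G c * AdjoinRoot.root G ^ l := by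
        rw [← C_mul_X_pow_eq_monomial, map_mul, map_pow, AdjoinRoot.mk_C, AdjoinRoot.mk_X]
      rw [h2, map_mul, map_pow]
      exact mul_mem (h c) (pow_mem hv l)

theorem root_mem₂ {Ω N T : Type} [CommRing T] [Field Ω] [Field N] [Algebra Ω N] (G : T[X][X])
    (φ : AdjoinRoot G →+* N) (K : IntermediateField Ω N)
    (h : ∀ c : T, φ (AdjoinRoot.of G (C c)) ∈ K) (hz : φ (AdjoinRoot.of G X) ∈ K)
    (hv : φ (AdjoinRoot.root G) ∈ K) (c : AdjoinRoot G) : φ c ∈ K := by
  refine root_mem G φ K (fun g => ?_) hv c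
  induction g using Polynomial.induction_on' with
  | add g g' hg hg' =>
    rw [map_add, map_add]
    exact add_mem hg hg'
  | monomial l c =>
    rw [← C_mul_X_pow_eq_monomial, map_mul, map_mul, map_pow, map_pow]
    exact mul_mem (h c) (pow_mem hz l)

theorem tri_rel {N T : Type} [CommRing T] [CommRing N] (n s t : ℕ) (a : T)
    (φ : AdjoinRoot (C (C a * X ^ n) - X ^ s * (1 - X) ^ t : T[X][X]) →+* N) :
    φ (AdjoinRoot.of _ (C a)) * φ (AdjoinRoot.of _ X) ^ n =
      φ (AdjoinRoot.root _) ^ s * (1 - φ (AdjoinRoot.root _)) ^ t := by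
  have h1 := congrArg φ (Pool.Agent.Helper9.TP.isTri_std n s t a).rel
  have h2 : ∀ (B : Type) [CommRing B] (ψ : B →+* N) (u z v : B),
      ψ (u * z ^ n) = ψ (v ^ s * (1 - v) ^ t) → ψ u * ψ z ^ n = ψ v ^ s * (1 - ψ v) ^ t := by
    intro B _ ψ u z v h
    rw [← map_pow, ← map_mul, h, map_mul, map_pow, map_pow, map_sub, map_one]
  exact h2 _ φ _ _ _ h1

theorem two_rel {N T : Type} [CommRing T] [CommRing N] (n : ℕ) (a : T)
    (φ : AdjoinRoot (X ^ n - C a : T[X]) →+* N) :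
    φ (AdjoinRoot.root _) ^ n = φ (AdjoinRoot.of _ a) := by
  have h1 := AdjoinRoot.eval₂_root (X ^ n - C a : T[X])
  rw [eval₂_sub, eval₂_X_pow, eval₂_C, sub_eq_zero] at h1
  have h2 := congrArg φ h1
  rw [map_pow] at h2
  exact h2

section

variable {k : Type} [Field k] [Finite k] {Ω N : Type} [Field Ω] [IsAlgClosed Ω] [Field N]
  [Algebra Ω N]

/-- degrees of polynomials over the algebraically closed field -/
theorem deg_map {a b c i D' : ℕ} {f : MvPolynomial (Fin 2) k}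
    (hf : ∀ m ∈ f.support, a * m 0 + b * m 1 + c * i ≤ D') (ψ : k →+* Ω) :
    Deg a b c i D' (MvPolynomial.map ψ f) := by
  intro m hm
  exact hf m (MvPolynomial.support_map_subset _ _ hm)

/-- the coordinates of a point of the open subset `u ≠ 0` of the plane -/
theorem pt_coord (Ω : Type) {N : Type} [Field Ω] [IsAlgClosed Ω] [Field N] [Algebra Ω N]
    (u : MvPolynomial (Fin 2) k) (ρ : Localization.Away u →+* N) :
    ∃ (ψ : k →+* Ω) (x y : N),
      (∀ q, ρ (loc u q) = MvPolynomial.aeval ![x, y] (MvPolynomial.map ψ q)) ∧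
      ∀ K : IntermediateField Ω N, x ∈ K → y ∈ K → ∀ a, ρ a ∈ K := by
  obtain ⟨ψ, hψ⟩ := exists_pol Ω (ρ.comp (loc u))
  exact ⟨ψ, ρ (loc u (MvPolynomial.X 0)), ρ (loc u (MvPolynomial.X 1)), hψ,
    fun K hx hy a => loc_mem u ρ K hx hy a⟩

/-- the coordinates of a point of the surface `w ^ n = α` -/
theorem two_coord (Ω : Type) {N : Type} [Field Ω] [IsAlgClosed Ω] [Field N] [Algebra Ω N] {n : ℕ}
    (u : MvPolynomial (Fin 2) k) (α : Localization.Away u)
    (φ : AdjoinRoot (X ^ n - C α : (Localization.Away u)[X]) →+* N) :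
    ∃ (ψ : k →+* Ω) (ρ : Localization.Away u →+* N) (x y w : N),
      (∀ q, ρ (loc u q) = MvPolynomial.aeval ![x, y] (MvPolynomial.map ψ q)) ∧
      w ^ n = ρ α ∧ ∀ a ∈ Set.range φ, a ∈ adjoin Ω {x, y, w} := by
  obtain ⟨ψ, x, y, h1, h2⟩ := pt_coord Ω u (φ.comp (AdjoinRoot.of _))
  refine ⟨ψ, φ.comp (AdjoinRoot.of _), x, y, φ (AdjoinRoot.root _), h1, two_rel n α φ, ?_⟩
  rintro _ ⟨c, rfl⟩
  refine root_mem _ φ _ (fun c => h2 _ ?_ ?_ c) ?_ c
  · exact subset_adjoin _ _ (by simp)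
  · exact subset_adjoin _ _ (by simp)
  · exact subset_adjoin _ _ (by simp)

/-- the coordinates of a point of the threefold `α z ^ n = v ^ s (1 - v) ^ t` -/
theorem tri_coord (Ω : Type) {N : Type} [Field Ω] [IsAlgClosed Ω] [Field N] [Algebra Ω N]
    {n s t : ℕ} (u : MvPolynomial (Fin 2) k) (α : Localization.Away u)
    (φ : AdjoinRoot (C (C α * X ^ n) - X ^ s * (1 - X) ^ t :
      (Localization.Away u)[X][X]) →+* N) :
    ∃ (ψ : k →+* Ω) (ρ : Localization.Away u →+* N) (x y z v : N),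
      (∀ q, ρ (loc u q) = MvPolynomial.aeval ![x, y] (MvPolynomial.map ψ q)) ∧
      ρ α * z ^ n = v ^ s * (1 - v) ^ t ∧ ∀ a ∈ Set.range φ, a ∈ adjoin Ω {x, y, v, z} := by
  obtain ⟨ψ, x, y, h1, h2⟩ := pt_coord Ω u ((φ.comp (AdjoinRoot.of _)).comp C)
  refine ⟨ψ, (φ.comp (AdjoinRoot.of _)).comp C, x, y, φ (AdjoinRoot.of _ X),
    φ (AdjoinRoot.root _), h1, tri_rel n s t α φ, ?_⟩
  rintro _ ⟨c, rfl⟩
  refine root_mem₂ _ φ _ (fun c => h2 _ ?_ ?_ c) ?_ ?_ c
  · exact subset_adjoin _ _ (by simp)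
  · exact subset_adjoin _ _ (by simp)
  · exact subset_adjoin _ _ (by simp)
  · exact subset_adjoin _ _ (by simp)

/-- the degenerate points -/
theorem uni_degen {n : ℕ} (hn : n ≠ 0) {F x y z v : N} (hF : F ≠ 0) {s t : ℕ}
    (h : F * z ^ n = v ^ s * (1 - v) ^ t) (h0 : z = 0 ∨ v = 0 ∨ 1 - v = 0) (hs : s ≠ 0)
    (ht : t ≠ 0) : Uniruled Ω (adjoin Ω {x, y, v, z} : IntermediateField Ω N) 3 := by
  have hz : z = 0 := by
    rcases h0 with h0 | h0 | h0
    · exact h0
    · rw [h0, zero_pow hs, zero_mul] at h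
      exact pow_eq_zero_iff hn |>.1 ((mul_eq_zero.1 h).resolve_left hF)
    · rw [h0, zero_pow ht, mul_zero] at h
      exact pow_eq_zero_iff hn |>.1 ((mul_eq_zero.1 h).resolve_left hF)
  have hv : v = 0 ∨ v = 1 := by
    rw [hz, zero_pow hn, mul_zero] at h
    rcases mul_eq_zero.1 h.symm with h1 | h1
    · exact Or.inl (pow_eq_zero_iff hs |>.1 h1)
    · exact Or.inr (sub_eq_zero.1 (pow_eq_zero_iff ht |>.1 h1)).symm
  refine uni_plane x y _ ?_
  rintro a (rfl | rfl | rfl | rfl)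
  · exact subset_adjoin _ _ (by simp)
  · exact subset_adjoin _ _ (by simp)
  · rcases hv with hv | hv
    · rw [hv]
      exact zero_mem _
    · rw [hv]
      exact one_mem _
  · rw [hz]
    exact zero_mem _

/-- **the threefolds of the trinomials are uniruled** -/
theorem uni_tri {a b c n s t : ℕ} (hn : n ≠ 0) (habc : 0 < a + b + c) (hst : s.Coprime t)
    (hs : 0 < s) (ht : 0 < t) (f g h : MvPolynomial (Fin 2) k)
    (hf : ∀ m ∈ f.support, a * m 0 + b * m 1 + c * 0 ≤ a + b + c)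
    (hg : ∀ m ∈ g.support, a * m 0 + b * m 1 + c * t ≤ a + b + c)
    (hh : ∀ m ∈ h.support, a * m 0 + b * m 1 + c * (s + t) ≤ a + b + c)
    (α : Localization.Away (f * g * h))
    (hα : α * loc (f * g * h) (g ^ (s + t)) = loc (f * g * h) (f ^ s * h ^ t)) :
    IsUniruled 3 (AdjoinRoot (C (C α * X ^ n) - X ^ s * (1 - X) ^ t :
      (Localization.Away (f * g * h))[X][X])) := by
  intro Ω N _ _ _ _ φ
  obtain ⟨ψ, ρ, x, y, z, v, h1, h2, h3⟩ := tri_coord Ω (f * g * h) α φ
  refine uniruled_adjoin (AlgHom.id Ω N) _ _ h3 ?_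
  have hu : ρ (loc (f * g * h) (f * g * h)) ≠ 0 :=
    ((IsLocalization.Away.algebraMap_isUnit (f * g * h)).map ρ).ne_zero
  rw [h1, map_mul, map_mul, map_mul, map_mul] at hu
  have hF := left_ne_zero_of_mul (left_ne_zero_of_mul hu)
  have hG := right_ne_zero_of_mul (left_ne_zero_of_mul hu)
  have hH := right_ne_zero_of_mul hu
  have h4 := congrArg ρ hα
  rw [map_mul, h1, h1, map_pow, map_pow, map_mul, map_mul, map_pow, map_pow, map_pow,
    map_pow] at h4
  have hρ : ρ α ≠ 0 := by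
    intro h0
    rw [h0, zero_mul] at h4
    exact mul_ne_zero (pow_ne_zero _ hF) (pow_ne_zero _ hH) h4.symm
  by_cases h0 : z = 0 ∨ v = 0 ∨ 1 - v = 0
  · exact uni_degen hn hρ h2 h0 hs.ne' ht.ne'
  push Not at h0
  obtain ⟨hz, hv, hv1⟩ := h0
  refine uni_three (a := a) (b := b) (c := c) (s := s) (t := t) (n := n) habc hst hs ht
    (MvPolynomial.map ψ f) (MvPolynomial.map ψ g) (MvPolynomial.map ψ h) (deg_map hf ψ)
    (deg_map hg ψ) (deg_map hh ψ) x y v z hF hG hH hz hv hv1 ?_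
  rw [← h2, mul_right_comm, h4, mul_comm]

end

end Pool.Agent.Helper9.TF
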